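import Pool.Agent.X234.PF.Close

/-!
# MP_f5e7e2_co: Pfaffians built from Al-Salam-Carlitz moment sequences
-/

set_option autoImplicit false

namespace Pool.Agent.Results.MP_f5e7e2_co.BothParts

open Finset Pool.Agent.X234.PF

/-- the moments `g_r = ∑_{j ≤ r} [r, j]_q a^j` for `r ≥ 0`, and `0` for `r < 0` -/
def mom {K : Type*} [Field K] (a q : K) (r : ℤ) : K :=
  if r < 0 then 0 else ∑ j ∈ range (r.toNat + 1), gb q r.toNat j * a ^ j

/-- `e(n) = m (16 m² - 1) / 3 - (-1)^n 4 m²` with `m = ⌊n / 2⌋` -/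
def ex (n : ℕ) : ℤ :=
  ((n / 2 : ℕ) : ℤ) * (16 * ((n / 2 : ℕ) : ℤ) ^ 2 - 1) / 3 - (-1) ^ n * (4 * ((n / 2 : ℕ) : ℤ) ^ 2)

/-- the exponent in the product of norms -/
def tt (n : ℕ) : ℕ := ∑ k ∈ range n, k * (2 * k - 1)

lemma tt6 (n : ℕ) : 6 * (tt n : ℤ) = n * (n - 1) * (4 * n - 5) := by
  induction n with
  | zero => simp [tt]
  | succ n ih =>
    rw [tt, Finset.sum_range_succ, ← tt, Nat.cast_add, mul_add, ih]
    rcases n with _ | n
    · simp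
    · rw [show 2 * (n + 1) - 1 = 2 * n + 1 by omega]
      push_cast
      ring

lemma ex_eq (n : ℕ) : (tt n : ℤ) = ex n - 2 * ((n / 2 : ℕ) : ℤ) * (((n - 1) / 2 : ℕ) : ℤ) := by
  have h6 := tt6 n
  have hdiv : ∀ m : ℤ, 3 * (m * (16 * m ^ 2 - 1) / 3) = m * (16 * m ^ 2 - 1) := by
    intro m
    apply Int.mul_ediv_cancel'
    have h3 : m % 3 = 0 ∨ m % 3 = 1 ∨ m % 3 = 2 := by omega
    rcases h3 with h | h | h
    · obtain ⟨t, rfl⟩ : ∃ t, m = 3 * t := ⟨m / 3, by omega⟩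
      exact ⟨t * (16 * (3 * t) ^ 2 - 1), by ring⟩
    · obtain ⟨t, rfl⟩ : ∃ t, m = 3 * t + 1 := ⟨m / 3, by omega⟩
      exact ⟨(3 * t + 1) * (48 * t ^ 2 + 32 * t + 5), by ring⟩
    · obtain ⟨t, rfl⟩ : ∃ t, m = 3 * t + 2 := ⟨m / 3, by omega⟩
      exact ⟨(3 * t + 2) * (48 * t ^ 2 + 64 * t + 21), by ring⟩
  rcases Nat.even_or_odd' n with ⟨m, rfl | rfl⟩
  · rw [ex, show 2 * m / 2 = m by omega]
    have h3 := hdiv (m : ℤ)
    have hpow : (-1 : ℤ) ^ (2 * m) = 1 := by rw [pow_mul]; simp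
    rw [hpow]
    generalize (m : ℤ) * (16 * (m : ℤ) ^ 2 - 1) / 3 = T at *
    rcases m with _ | m
    · simp at h6 h3 ⊢
      omega
    · rw [show (2 * (m + 1) - 1) / 2 = m by omega]
      push_cast at h6 h3 ⊢
      linarith
  · rw [ex, show (2 * m + 1) / 2 = m by omega, show (2 * m + 1 - 1) / 2 = m by omega]
    have h3 := hdiv (m : ℤ)
    have hpow : (-1 : ℤ) ^ (2 * m + 1) = -1 := by rw [pow_succ, pow_mul]; simp
    rw [hpow]
    generalize (m : ℤ) * (16 * (m : ℤ) ^ 2 - 1) / 3 = T at *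
    push_cast at h6 h3 ⊢
    linarith

lemma cc_eq (n k : ℕ) (hk : k ≤ n) : (tt n : ℤ) + ((k * (k - 1) + (n - k) * (n - k - 1) : ℕ) : ℤ) =
    ex n + ((n : ℤ) - 2 * k) ^ 2 / 2 := by
  rw [ex_eq]
  have h1 : ((k * (k - 1) : ℕ) : ℤ) = k * (k - 1) := by
    rcases k with _ | k
    · simp
    · push_cast [Nat.add_sub_cancel]; ring
  have h2 : (((n - k) * (n - k - 1) : ℕ) : ℤ) = (n - k) * (n - k - 1) := by
    obtain ⟨l, rfl⟩ : ∃ l, n = k + l := ⟨n - k, by omega⟩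
    rw [Nat.add_sub_cancel_left]
    rcases l with _ | l
    · simp
    · push_cast [Nat.add_sub_cancel]; ring
  rw [Nat.cast_add, h1, h2]
  rcases Nat.even_or_odd' n with ⟨m, rfl | rfl⟩
  · have e : (((2 * m : ℕ) : ℤ) - 2 * k) ^ 2 / 2 = 2 * ((m : ℤ) - k) ^ 2 := by
      rw [show (((2 * m : ℕ) : ℤ) - 2 * k) ^ 2 = 2 * (2 * ((m : ℤ) - k) ^ 2) by push_cast; ring]
      exact Int.mul_ediv_cancel_left _ (by norm_num)
    rw [e, show 2 * m / 2 = m by omega]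
    rcases m with _ | m
    · have : k = 0 := by omega
      subst this
      simp
    · rw [show (2 * (m + 1) - 1) / 2 = m by omega]
      push_cast
      ring
  · have e : (((2 * m + 1 : ℕ) : ℤ) - 2 * k) ^ 2 / 2 = 2 * ((m : ℤ) - k) ^ 2 + 2 * ((m : ℤ) - k) := by
      have h : (((2 * m + 1 : ℕ) : ℤ) - 2 * k) ^ 2 =
          2 * (2 * ((m : ℤ) - k) ^ 2 + 2 * ((m : ℤ) - k)) + 1 := by push_cast; ring
      rw [h]
      omega
    rw [e, show (2 * m + 1) / 2 = m by omega, show (2 * m + 1 - 1) / 2 = m by omega]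
    push_cast
    ring

/-- Let `K` be a field of characteristic zero, `a, q ∈ K`, `q ≠ 0` not a root of unity (for
instance `K = ℚ(a, q)`). For every `n ≥ 1`, with `x_i = q^(i-1)`, `m = ⌊n/2⌋`, `m' = ⌊(n-1)/2⌋`,
`P_n = ∏_{k=1}^{n} (q;q)_{2k-1}`:
`Pf ((x_i - x_j) g_{i+j-3}) = a^(n(n-1)) q^(e(n) - 2 m m') P_n` and
`Pf ((x_i - x_j) g_{i+j-2}) = a^(n(n-1)) q^(e(n)) P_n ∑_{k ≤ n} q^⌊(n-2k)²/2⌋ [n, k]_{q²} a^k`
(`1 ≤ i, j ≤ 2 n`; in the formal statement `i, j` run from `0` to `2 n - 1`). -/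
theorem result (K : Type*) [Field K] [CharZero K] (a q : K) (hq0 : q ≠ 0)
    (hq : ∀ m : ℕ, 1 ≤ m → q ^ m ≠ 1) (n : ℕ) (_hn : 1 ≤ n) :
    pf n (Matrix.of fun i j : Fin (2 * n) =>
      (q ^ (i : ℕ) - q ^ (j : ℕ)) * mom a q (((i : ℕ) + 1 : ℤ) + ((j : ℕ) + 1 : ℤ) - 3)) =
      a ^ (n * (n - 1)) * q ^ (ex n - 2 * ((n / 2 : ℕ) : ℤ) * (((n - 1) / 2 : ℕ) : ℤ)) *
        ∏ k ∈ range n, qp q (2 * k + 1) ∧
    pf n (Matrix.of fun i j : Fin (2 * n) =>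
      (q ^ (i : ℕ) - q ^ (j : ℕ)) * mom a q (((i : ℕ) + 1 : ℤ) + ((j : ℕ) + 1 : ℤ) - 2)) =
      a ^ (n * (n - 1)) * q ^ (ex n) * (∏ k ∈ range n, qp q (2 * k + 1)) *
        ∑ k ∈ range (n + 1), q ^ (((n : ℤ) - 2 * k) ^ 2 / 2) * gb (q ^ 2) n k * a ^ k := by
  have hmom : ∀ r : ℕ, mom a q (r : ℤ) = gg a q r := by
    intro r
    rw [mom, if_neg (by omega), Int.toNat_natCast, gsum a q hq]
  have hprod : ∏ k ∈ range n, ((1 - q ^ (2 * k + 1)) * hh a q (2 * k)) =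
      a ^ (n * (n - 1)) * q ^ (tt n) * ∏ k ∈ range n, qp q (2 * k + 1) := by
    clear _hn
    induction n with
    | zero => simp [tt]
    | succ n ih =>
      have htt : tt (n + 1) = tt n + n * (2 * n - 1) := Finset.sum_range_succ _ _
      rw [Finset.prod_range_succ, Finset.prod_range_succ, ih, hh_even, qp_succ, htt, pow_add,
        show (n + 1) * (n + 1 - 1) = n * (n - 1) + 2 * n by
          rcases n with _ | n
          · rfl
          · simp only [Nat.add_sub_cancel]; ring, pow_add]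
      ring
  refine ⟨?_, ?_⟩
  · rw [← ex_eq, zpow_natCast, ← hprod, ← pf_first]
    congr 1
    ext i j
    simp only [Matrix.of_apply]
    by_cases h : (i : ℕ) + (j : ℕ) = 0
    · rw [show (i : ℕ) = 0 by omega, show (j : ℕ) = 0 by omega]
      simp
    · rw [show (((i : ℕ) + 1 : ℤ) + ((j : ℕ) + 1 : ℤ) - 3) = (((i : ℕ) + (j : ℕ) - 1 : ℕ) : ℤ) by
        omega, hmom]
  · have hL : pf n (Matrix.of fun i j : Fin (2 * n) =>
        (q ^ (i : ℕ) - q ^ (j : ℕ)) * mom a q (((i : ℕ) + 1 : ℤ) + ((j : ℕ) + 1 : ℤ) - 2)) =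
        pf n (Matrix.of fun i j : Fin (2 * n) =>
        (q ^ (i : ℕ) - q ^ (j : ℕ)) * gg a q ((i : ℕ) + (j : ℕ))) := by
      congr 1
      ext i j
      simp only [Matrix.of_apply]
      rw [show (((i : ℕ) + 1 : ℤ) + ((j : ℕ) + 1 : ℤ) - 2) = (((i : ℕ) + (j : ℕ) : ℕ) : ℤ) by
        omega, hmom]
    rw [hL, pf_second a q hq0 hq, hprod, ← Rsum a q hq]
    have hs : q ^ (tt n) * ∑ k ∈ range (n + 1),
        q ^ (k * (k - 1) + (n - k) * (n - k - 1)) * gb (q ^ 2) n k * a ^ k =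
        q ^ (ex n) * ∑ k ∈ range (n + 1), q ^ (((n : ℤ) - 2 * k) ^ 2 / 2) * gb (q ^ 2) n k * a ^ k := by
      rw [Finset.mul_sum, Finset.mul_sum]
      refine Finset.sum_congr rfl fun k hk => ?_
      have hk' : k ≤ n := by
        have := Finset.mem_range.1 hk
        omega
      have h := cc_eq n k hk'
      have e : q ^ (tt n) * q ^ (k * (k - 1) + (n - k) * (n - k - 1)) =
          q ^ (ex n) * q ^ (((n : ℤ) - 2 * k) ^ 2 / 2) := by
        rw [← zpow_add₀ hq0, ← h, zpow_add₀ hq0, zpow_natCast, zpow_natCast]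
      calc q ^ (tt n) * (q ^ (k * (k - 1) + (n - k) * (n - k - 1)) * gb (q ^ 2) n k * a ^ k)
          = (q ^ (tt n) * q ^ (k * (k - 1) + (n - k) * (n - k - 1))) * gb (q ^ 2) n k * a ^ k := by
            ring
        _ = _ := by rw [e]; ring
    linear_combination (a ^ (n * (n - 1)) * ∏ k ∈ range n, qp q (2 * k + 1)) * hs

end Pool.Agent.Results.MP_f5e7e2_co.BothParts
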